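import Pool.Agent.RMC.Sign

set_option autoImplicit false

open Module Finset

namespace Pool.Agent.RMC

/-- correlation -/
def corr {m : ℕ} (g : Vec m → ZMod 2) (w : Vec m) : ℤ := ∑ x, sg (g x + lin w x)

lemma corr_eq {m : ℕ} (g : Vec m → ZMod 2) (w : Vec m) :
    corr g w = 2 ^ m - 2 * hammingDist g (lin w) := by
  have : ∀ x, sg (g x + lin w x) = 1 - 2 * (if g x ≠ lin w x then 1 else 0) := by
    intro x
    generalize lin w x = b
    generalize g x = a
    revert a b; decide
  rw [corr]
  simp_rw [this]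
  rw [Finset.sum_sub_distrib, ← Finset.mul_sum, Finset.sum_boole, hammingDist]
  simp

lemma near_sign {m i : ℕ} {g : Vec m → ZMod 2} {w : Vec m} (h : w ∈ near i g) :
    ∃ e : ZMod 2, (2 : ℤ) ^ m - 2 * i ≤ sg e * corr g w := by
  rw [near, mem_filter] at h
  rcases h.2 with h | h
  · refine ⟨0, ?_⟩
    rw [corr_eq]
    have : sg 0 = 1 := by decide
    rw [this]
    have h' : (hammingDist g (lin w) : ℤ) ≤ i := by exact_mod_cast h
    linarith
  · refine ⟨1, ?_⟩
    rw [corr_eq]
    have : sg 1 = -1 := by decide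
    rw [this]
    have h' : (2 : ℤ) ^ m ≤ i + hammingDist g (lin w) := by exact_mod_cast h
    linarith

lemma S_add_const {k : ℕ} (v : Vec k) (e : ZMod 2) : S (fun j => v j + e) = sg e * S v := by
  rw [S, S, Finset.mul_sum]
  refine Finset.sum_congr rfl fun j _ => ?_
  rw [sg_add, mul_comm]

theorem near_bound {m i k : ℕ} {g : Vec m → ZMod 2} {u0 : Vec m} {u : Fin k → Vec m}
    (hu : LinearIndependent (ZMod 2) u) (h0 : u0 ∈ near i g) (h1 : ∀ j, u0 + u j ∈ near i g) :
    (2 : ℤ) ^ k * (2 ^ m - 2 * i) ≤ 2 ^ m * k.choose (k / 2) := by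
  have hk : k ≤ m := by
    have := hu.fintype_card_le_finrank
    simpa using this
  obtain ⟨e0, he0⟩ := near_sign h0
  choose e he using fun j => near_sign (h1 j)
  have hsum : ((k : ℤ) + 1) * (2 ^ m - 2 * i) ≤
      sg e0 * corr g u0 + ∑ j, sg (e j) * corr g (u0 + u j) := by
    have : ∑ _j : Fin k, ((2 : ℤ) ^ m - 2 * i) ≤ ∑ j, sg (e j) * corr g (u0 + u j) :=
      Finset.sum_le_sum fun j _ => he j
    rw [Finset.sum_const, Finset.card_univ, Fintype.card_fin, nsmul_eq_mul] at this
    linarith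
  have hexp : sg e0 * corr g u0 + ∑ j, sg (e j) * corr g (u0 + u j) =
      ∑ x, sg (g x + lin u0 x) * (sg e0 + ∑ j, sg (e j) * sg (cell u x j)) := by
    simp_rw [mul_add, Finset.sum_add_distrib, corr, Finset.mul_sum]
    congr 1
    · refine Finset.sum_congr rfl fun x _ => mul_comm _ _
    · rw [Finset.sum_comm]
      refine Finset.sum_congr rfl fun x _ => Finset.sum_congr rfl fun j _ => ?_
      have : lin (u0 + u j) x = lin u0 x + cell u x j := by
        simp [lin, cell, add_dotProduct]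
      rw [this, ← add_assoc, sg_add (g x + lin u0 x)]
      ring
  have hle : ∑ x, sg (g x + lin u0 x) * (sg e0 + ∑ j, sg (e j) * sg (cell u x j)) ≤
      ∑ x, |1 + S (cell u x + fun j => e j + e0)| := by
    refine Finset.sum_le_sum fun x _ => ?_
    refine (le_abs_self _).trans ?_
    rw [abs_mul, abs_sg, one_mul]
    have h2 : (cell u x + fun j => e j + e0) = fun j => (e j + cell u x j) + e0 := by
      funext j; simp only [Pi.add_apply]; ring
    rw [h2, S_add_const]
    have h3 : sg e0 + ∑ j, sg (e j) * sg (cell u x j) =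
        sg e0 * (1 + sg e0 * S fun j => e j + cell u x j) := by
      rw [mul_add, mul_one, ← mul_assoc, sg_sq, one_mul, S]
      simp_rw [sg_add]
    rw [h3, abs_mul, abs_sg, one_mul]
  have hcell : ∑ x, |1 + S (cell u x + fun j => e j + e0)| = 2 ^ (m - k) * EE k := by
    rw [← Finset.sum_fiberwise univ (cell u)]
    have : ∀ y : Vec k, ∑ x ∈ univ.filter (fun x => cell u x = y),
        |1 + S (cell u x + fun j => e j + e0)| = 2 ^ (m - k) * |1 + S (y + fun j => e j + e0)| := by
      intro y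
      have h4 : ∀ x ∈ univ.filter (fun x => cell u x = y),
          |1 + S (cell u x + fun j => e j + e0)| = |1 + S (y + fun j => e j + e0)| := by
        intro x hx
        rw [(mem_filter.1 hx).2]
      rw [Finset.sum_congr rfl h4, Finset.sum_const, card_cell hu, nsmul_eq_mul]
      push_cast
      rfl
    rw [Finset.sum_congr rfl fun y _ => this y, ← Finset.mul_sum, EE]
    congr 1
    exact Fintype.sum_equiv (Equiv.addRight (fun j => e j + e0)) _ _ fun v => rfl
  have hfin : ((k : ℤ) + 1) * (2 ^ m - 2 * i) ≤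
      2 ^ (m - k) * (((k : ℤ) + 1) * k.choose (k / 2)) := by
    rw [← EE_closed, ← hcell]
    exact hsum.trans (hexp.le.trans hle)
  have hk1 : (0 : ℤ) < (k : ℤ) + 1 := by positivity
  have h5 : (2 : ℤ) ^ m - 2 * i ≤ 2 ^ (m - k) * k.choose (k / 2) := by
    have : ((k : ℤ) + 1) * (2 ^ m - 2 * i) ≤ ((k : ℤ) + 1) * (2 ^ (m - k) * k.choose (k / 2)) := by
      linarith
    exact le_of_mul_le_mul_left this hk1
  calc (2 : ℤ) ^ k * (2 ^ m - 2 * i) ≤ 2 ^ k * (2 ^ (m - k) * k.choose (k / 2)) :=
        mul_le_mul_of_nonneg_left h5 (by positivity)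
    _ = 2 ^ m * k.choose (k / 2) := by
        rw [← mul_assoc, ← pow_add, Nat.add_sub_cancel' hk]

/-- Under the bound on `i` the near set contains no large affinely independent subset. -/
theorem near_dim {m i r : ℕ} (g : Vec m → ZMod 2)
    (h : 2 ^ (r + 2) * i + (r + 1).choose ((r + 1) / 2) * 2 ^ m < 2 ^ (r + 1) * 2 ^ m)
    (T : Finset (Vec m)) (hT : T ⊆ near i g) (hne : T.Nonempty) :
    finrank (ZMod 2) (affineSpan (ZMod 2) (T : Set (Vec m))).direction < r + 1 := by
  by_contra hcon
  push Not at hcon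
  obtain ⟨u0, hu0⟩ := hne
  rw [direction_affineSpan, vectorSpan_eq_span_vsub_set_right (ZMod 2) (mem_coe.2 hu0)] at hcon
  set A : Set (Vec m) := (fun x => x -ᵥ u0) '' (T : Set (Vec m)) with hA
  obtain ⟨b, hbA, hspan, hb⟩ := exists_linearIndependent (ZMod 2) A
  have hbfin : b.Finite := Set.toFinite b
  have : Fintype b := hbfin.fintype
  have hcard : r + 1 ≤ Fintype.card b := by
    rw [← hspan] at hcon
    rwa [finrank_span_set_eq_card hb, Set.toFinset_card] at hcon
  obtain ⟨f⟩ : Nonempty (Fin (r + 1) ↪ b) := by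
    apply Function.Embedding.nonempty_of_card_le
    simpa using hcard
  have hu : LinearIndependent (ZMod 2) (fun j : Fin (r + 1) => ((f j : b) : Vec m)) :=
    hb.comp f f.injective
  have h1 : ∀ j : Fin (r + 1), u0 + ((f j : b) : Vec m) ∈ near i g := by
    intro j
    obtain ⟨x, hx, hxe⟩ := hbA (f j).2
    have : u0 + ((f j : b) : Vec m) = x := by
      rw [← hxe]; simp
    rw [this]
    exact hT (mem_coe.1 hx)
  have hb2 := near_bound hu (hT hu0) h1
  have h' : (2 : ℤ) ^ (r + 2) * i + ((r + 1).choose ((r + 1) / 2) : ℕ) * 2 ^ m <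
      2 ^ (r + 1) * 2 ^ m := by exact_mod_cast h
  rw [pow_succ (2 : ℤ) (r + 1)] at h'
  nlinarith

end Pool.Agent.RMC
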