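import Pool.Agent.RMC.Count

set_option autoImplicit false
set_option linter.unusedSectionVars false

open Module Finset

namespace Pool.Agent.RMC

section general

variable {X Y : Type*} [Fintype X] [DecidableEq X] [Fintype Y] [DecidableEq Y]

/-- number of ones of `g` in the cell `y` -/
def cnt (φ : X → Y) (g : X → ZMod 2) (y : Y) : ℕ := #{x | φ x = y ∧ g x ≠ 0}

lemma cnt_le (φ : X → Y) (g : X → ZMod 2) (y : Y) : cnt φ g y ≤ #{x | φ x = y} := by
  apply Finset.card_le_card
  intro x hx
  simp only [mem_filter, mem_univ, true_and] at hx ⊢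
  exact hx.1

lemma zmod2_cases (a : ZMod 2) : a = 0 ∨ a = 1 := by
  revert a; decide

lemma card_cells (φ : X → Y) (c : Y → ℕ) :
    #{g : X → ZMod 2 | ∀ y, cnt φ g y = c y} = ∏ y, (#{x | φ x = y}).choose (c y) := by
  have : ∏ y, (#{x | φ x = y}).choose (c y) =
      #(Fintype.piFinset fun y => powersetCard (c y) ({x | φ x = y} : Finset X)) := by
    rw [Fintype.card_piFinset]
    simp
  rw [this]
  refine Finset.card_bij' (fun g _ y => ({x | φ x = y ∧ g x ≠ 0} : Finset X))
    (fun s _ x => if x ∈ s (φ x) then 1 else 0) ?_ ?_ ?_ ?_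
  · intro g hg
    simp only [mem_filter, mem_univ, true_and] at hg
    simp only [Fintype.mem_piFinset, mem_powersetCard]
    intro y
    refine ⟨?_, hg y⟩
    intro x hx
    simp only [mem_filter, mem_univ, true_and] at hx ⊢
    exact hx.1
  · intro s hs
    simp only [Fintype.mem_piFinset, mem_powersetCard] at hs
    rw [mem_filter]
    refine ⟨mem_univ _, fun y => ?_⟩
    rw [← (hs y).2, cnt]
    congr 1
    ext x
    simp only [mem_filter, mem_univ, true_and]
    constructor
    · rintro ⟨rfl, h⟩
      by_contra h'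
      simp [h'] at h
    · intro h
      have := (hs y).1 h
      simp only [mem_filter, mem_univ, true_and] at this
      subst this
      simp [h]
  · intro g _
    funext x
    rcases zmod2_cases (g x) with h | h <;> simp [h]
  · intro s hs
    simp only [Fintype.mem_piFinset, mem_powersetCard] at hs
    funext y
    ext x
    simp only [mem_filter, mem_univ, true_and]
    constructor
    · rintro ⟨rfl, h⟩
      by_contra h'
      simp [h'] at h
    · intro h
      have := (hs y).1 h
      simp only [mem_filter, mem_univ, true_and] at this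
      subst this
      simp [h]

lemma sum_cells (φ : X → Y) (M : ℕ) (hM : ∀ y, #{x | φ x = y} = M) (F : (Y → ℕ) → ℤ) :
    ∑ g : X → ZMod 2, F (cnt φ g) =
      ∑ c : Y → Fin (M + 1), F (fun y => (c y : ℕ)) * ∏ y, (M.choose (c y) : ℤ) := by
  have hlt : ∀ (g : X → ZMod 2) y, cnt φ g y < M + 1 := fun g y =>
    Nat.lt_succ_of_le ((cnt_le φ g y).trans (hM y).le)
  rw [← Finset.sum_fiberwise univ (fun g : X → ZMod 2 => fun y => (⟨cnt φ g y, hlt g y⟩ :
    Fin (M + 1)))]
  refine Finset.sum_congr rfl fun c _ => ?_
  have h1 : ∀ g ∈ Finset.univ.filter fun g : X → ZMod 2 =>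
      (fun y => (⟨cnt φ g y, hlt g y⟩ : Fin (M + 1))) = c,
      F (cnt φ g) = F (fun y => (c y : ℕ)) := by
    intro g hg
    simp only [mem_filter, mem_univ, true_and] at hg
    congr 1
    funext y
    rw [← hg]
  rw [Finset.sum_congr rfl h1, Finset.sum_const, nsmul_eq_mul, mul_comm]
  congr 1
  have h2 : (Finset.univ.filter fun g : X → ZMod 2 =>
      (fun y => (⟨cnt φ g y, hlt g y⟩ : Fin (M + 1))) = c) =
      Finset.univ.filter fun g : X → ZMod 2 => ∀ y, cnt φ g y = (c y : ℕ) := by
    ext g
    simp only [mem_filter, mem_univ, true_and, funext_iff, Fin.ext_iff]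
  rw [h2, card_cells]
  push_cast
  exact Finset.prod_congr rfl fun y _ => by rw [hM]

/-- distance from a function of the cell -/
lemma card_ne_comp (φ : X → Y) (M : ℕ) (hM : ∀ y, #{x | φ x = y} = M) (g : X → ZMod 2)
    (h : Y → ZMod 2) :
    #{x | g x ≠ h (φ x)} = ∑ y, if h y = 0 then cnt φ g y else M - cnt φ g y := by
  rw [Finset.card_eq_sum_card_fiberwise (f := φ) (t := univ) (by intro x _; simp)]
  refine Finset.sum_congr rfl fun y _ => ?_
  rw [Finset.filter_filter]
  split_ifs with h0
  · rw [cnt]
    congr 1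
    ext x
    simp only [mem_filter, mem_univ, true_and]
    constructor
    · rintro ⟨h1, h2⟩
      exact ⟨h2, by rw [h2, h0] at h1; exact h1⟩
    · rintro ⟨h1, h2⟩
      exact ⟨by rw [h1, h0]; exact h2, h1⟩
  · have h1 : h y = 1 := (zmod2_cases (h y)).resolve_left h0
    rw [eq_tsub_iff_add_eq_of_le ((cnt_le φ g y).trans (hM y).le), ← hM y, cnt,
      ← Finset.card_union_of_disjoint]
    · congr 1
      ext x
      simp only [mem_filter, mem_univ, true_and, mem_union]
      constructor
      · rintro (⟨_, h2⟩ | ⟨h2, _⟩) <;> exact h2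
      · intro h2
        rcases zmod2_cases (g x) with h3 | h3
        · left; exact ⟨by rw [h2, h1, h3]; decide, h2⟩
        · right; exact ⟨h2, by rw [h3]; decide⟩
    · rw [Finset.disjoint_left]
      intro x hx hx'
      simp only [mem_filter, mem_univ, true_and] at hx hx'
      rcases zmod2_cases (g x) with h3 | h3
      · exact hx'.2 h3
      · apply hx.1; rw [hx.2, h1, h3]

end general

/-- the linear function with coefficient vector `u` -/
def lin {m : ℕ} (u : Vec m) : Vec m → ZMod 2 := fun x => u ⬝ᵥ x

/-- the coefficient vectors of the linear functions near `g`, up to complement -/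
def near {m : ℕ} (i : ℕ) (g : Vec m → ZMod 2) : Finset (Vec m) :=
  {u | hammingDist g (lin u) ≤ i ∨ 2 ^ m ≤ i + hammingDist g (lin u)}

/-- the cell map -/
def cell {m d : ℕ} (u : Fin d → Vec m) (x : Vec m) : Vec d := fun j => u j ⬝ᵥ x

lemma cell_surjective {m d : ℕ} {u : Fin d → Vec m} (hu : LinearIndependent (ZMod 2) u) :
    Function.Surjective (cell u) := by
  have hr : (Matrix.of u).rank = d := by
    have := LinearIndependent.rank_matrix (M := Matrix.of u) hu
    simpa using this
  have h2 : LinearMap.range (Matrix.of u).mulVecLin = ⊤ := by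
    apply Submodule.eq_top_of_finrank_eq
    rw [← Matrix.rank, hr]
    simp
  intro y
  obtain ⟨x, hx⟩ := LinearMap.range_eq_top.1 h2 y
  exact ⟨x, by rw [← hx]; rfl⟩

lemma card_cell {m d : ℕ} {u : Fin d → Vec m} (hu : LinearIndependent (ZMod 2) u) (y : Vec d) :
    #{x | cell u x = y} = 2 ^ (m - d) := by
  have hd : d ≤ m := by
    have := hu.fintype_card_le_finrank
    simpa using this
  have hadd : ∀ x x', cell u (x + x') = cell u x + cell u x' := by
    intro x x'; funext j; simp [cell]
  have hconst : ∀ y, #{x | cell u x = y} = #{x | cell u x = 0} := by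
    intro y
    obtain ⟨x0, hx0⟩ := cell_surjective hu y
    refine Finset.card_bij' (fun x _ => x - x0) (fun x _ => x + x0) ?_ ?_ ?_ ?_
    · intro x hx
      simp only [mem_filter, mem_univ, true_and] at hx ⊢
      have := hadd (x - x0) x0
      rw [sub_add_cancel, hx, hx0] at this
      simpa using this.symm
    · intro x hx
      simp only [mem_filter, mem_univ, true_and] at hx ⊢
      rw [hadd, hx, hx0, zero_add]
    · intro x _; simp
    · intro x _; simp
  have htot : (2 : ℕ) ^ m = ∑ y : Vec d, #{x | cell u x = y} := by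
    rw [← Finset.card_eq_sum_card_fiberwise (f := cell u) (s := univ) (t := univ)
      (by intro x _; simp)]
    simp
  rw [hconst]
  simp_rw [hconst] at htot
  rw [Finset.sum_const, smul_eq_mul] at htot
  have h3 : #(univ : Finset (Vec d)) = 2 ^ d := by simp
  rw [h3] at htot
  have h4 : (2 : ℕ) ^ m = 2 ^ d * 2 ^ (m - d) := by rw [← pow_add]; congr 1; omega
  rw [h4] at htot
  exact (Nat.eq_of_mul_eq_mul_left (by positivity) htot).symm

lemma zmod2_add_self (a : ZMod 2) : a + a = 0 := by revert a; decide

lemma hammingDist_tau {m d : ℕ} (p : Par m d) (g : Vec m → ZMod 2) (t : Vec d) :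
    hammingDist (g + lin p.1) (lin (tau p t)) =
      cellDist (2 ^ (m - d)) (cnt (cell p.2.1) g) t := by
  rw [cellDist, ← card_ne_comp (cell p.2.1) (2 ^ (m - d)) (card_cell p.2.2) g (fun v => t ⬝ᵥ v),
    hammingDist]
  congr 1
  ext x
  simp only [mem_filter, mem_univ, true_and]
  have h1 : lin (tau p t) x = t ⬝ᵥ cell p.2.1 x + lin p.1 x := by
    rw [tau_apply, lin, add_dotProduct, lin, sum_dotProduct]
    congr 1
    rw [dotProduct]
    refine Finset.sum_congr rfl fun j _ => ?_
    rw [smul_dotProduct, smul_eq_mul, cell]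
  rw [h1, Pi.add_apply]
  simp

open Classical in
theorem sum_spanWeight {m d : ℕ} (p : Par m d) (i : ℕ) :
    ∑ g : Vec m → ZMod 2, spanWeight (tau p ⁻¹' (near i g : Set (Vec m))) =
      cellSum d (2 ^ (m - d)) i := by
  have hd : d ≤ m := by
    have := p.2.2.fintype_card_le_finrank
    simpa using this
  rw [cellSum, ← sum_cells (cell p.2.1) (2 ^ (m - d)) (card_cell p.2.2)
    (fun c => spanWeight (nearSet (2 ^ (m - d)) i c))]
  refine Fintype.sum_equiv (Equiv.addRight (lin p.1)) _ _ fun g => ?_
  congr 1
  ext t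
  simp only [Set.mem_preimage, near, mem_coe, mem_filter, mem_univ, true_and, nearSet,
    Set.mem_ofPred_eq, Equiv.coe_addRight]
  have h1 : g + lin p.1 + lin p.1 = g := by
    funext x
    simp only [Pi.add_apply, add_assoc, zmod2_add_self, add_zero]
  have h2 := hammingDist_tau p (g + lin p.1) t
  rw [h1] at h2
  rw [h2, ← pow_add, Nat.add_sub_cancel' hd]

end Pool.Agent.RMC
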