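import Pool.Agent.RMC.Span

set_option autoImplicit false

open Module Finset

namespace Pool.Agent.RMC

/-- `∏_{j<d} (2^n - 2^j)` as a natural number -/
def frames (n d : ℕ) : ℕ := ∏ j ∈ range d, (2 ^ n - 2 ^ j)

lemma frames_pos (d : ℕ) : 0 < frames d d := by
  refine Finset.prod_pos fun j hj => ?_
  have : 2 ^ j < 2 ^ d := Nat.pow_lt_pow_right (by norm_num) (mem_range.1 hj)
  omega

lemma frames_cast {n d : ℕ} (h : d ≤ n) :
    ((frames n d : ℕ) : ℚ) = ∏ j ∈ range d, ((2 : ℚ) ^ n - 2 ^ j) := by
  rw [frames, Nat.cast_prod]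
  refine Finset.prod_congr rfl fun j hj => ?_
  have : 2 ^ j ≤ 2 ^ n := Nat.pow_le_pow_right (by norm_num) (by have := mem_range.1 hj; omega)
  push_cast [Nat.cast_sub this]
  norm_num

lemma card_frames {V : Type*} [AddCommGroup V] [Module (ZMod 2) V] [Finite V] {k : ℕ}
    (hk : k ≤ finrank (ZMod 2) V) :
    Nat.card {s : Fin k → V // LinearIndependent (ZMod 2) s} = frames (finrank (ZMod 2) V) k := by
  rw [card_linearIndependent hk, frames, ZMod.card, Finset.prod_range]

lemma card_par {m d : ℕ} (h : d ≤ m) : Fintype.card (Par m d) = 2 ^ m * frames m d := by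
  rw [← Nat.card_eq_fintype_card, Nat.card_prod, card_frames (V := Vec m) (by simpa using h)]
  simp

lemma par_empty {m d : ℕ} (h : m < d) : IsEmpty (Par m d) := by
  constructor
  rintro ⟨_, u, hu⟩
  have := hu.fintype_card_le_finrank
  simp at this
  omega

/-- number of ordered bases of a subspace -/
lemma card_bases {m : ℕ} (W : Submodule (ZMod 2) (Vec m)) (d : ℕ) :
    Nat.card {u : Fin d → Vec m // LinearIndependent (ZMod 2) u ∧
      Submodule.span (ZMod 2) (Set.range u) = W} =
      if d = finrank (ZMod 2) W then frames d d else 0 := by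
  split_ifs with h
  · subst h
    rw [← card_frames (V := W) le_rfl]
    refine Nat.card_congr ⟨fun u => ⟨fun j => ⟨u.1 j, ?_⟩, ?_⟩, fun s => ⟨fun j => (s.1 j : Vec m),
      ?_, ?_⟩, ?_, ?_⟩
    · have := Submodule.subset_span (R := ZMod 2) (Set.mem_range_self (f := u.1) j)
      rwa [u.2.2] at this
    · exact LinearIndependent.of_comp W.subtype (by simpa [Function.comp_def] using u.2.1)
    · have := s.2.map' W.subtype (Submodule.ker_subtype W)
      simpa [Function.comp_def] using this
    · apply Submodule.eq_of_le_of_finrank_eq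
      · rw [Submodule.span_le]
        rintro _ ⟨j, rfl⟩
        exact (s.1 j).2
      · have h1 : LinearIndependent (ZMod 2) fun j => (s.1 j : Vec m) := by
          have := s.2.map' W.subtype (Submodule.ker_subtype W)
          simpa [Function.comp_def] using this
        rw [finrank_span_eq_card h1, Fintype.card_fin]
    · intro u; rfl
    · intro s; rfl
  · have : IsEmpty {u : Fin d → Vec m // LinearIndependent (ZMod 2) u ∧
      Submodule.span (ZMod 2) (Set.range u) = W} := by
      constructor
      rintro ⟨u, hu, hW⟩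
      apply h
      rw [← hW, finrank_span_eq_card hu, Fintype.card_fin]
    rw [Nat.card_of_isEmpty]

lemma card_affine {m : ℕ} (A : AffineSubspace (ZMod 2) (Vec m)) (hA : (A : Set (Vec m)).Nonempty) :
    Nat.card {x : Vec m // x ∈ A} = 2 ^ finrank (ZMod 2) A.direction := by
  obtain ⟨p, hp⟩ := hA
  have hp' : p ∈ A := hp
  have e : {x : Vec m // x ∈ A} ≃ A.direction :=
    ⟨fun x => ⟨x.1 - p, by simpa using AffineSubspace.vsub_mem_direction x.2 hp'⟩,
     fun w => ⟨(w : Vec m) + p, by simpa using AffineSubspace.vadd_mem_of_mem_direction w.2 hp'⟩,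
     fun x => by simp, fun w => by simp⟩
  have : Fintype A.direction := Fintype.ofFinite _
  rw [Nat.card_congr e, Nat.card_eq_fintype_card, Module.card_eq_pow_finrank (K := ZMod 2),
    ZMod.card]

/-- number of parametrisations of a given flat -/
lemma card_par_flat {m d : ℕ} (A : AffineSubspace (ZMod 2) (Vec m))
    (hA : (A : Set (Vec m)).Nonempty) :
    Nat.card {p : Par m d // flat p = A} =
      if d = finrank (ZMod 2) A.direction then 2 ^ d * frames d d else 0 := by
  have e : {p : Par m d // flat p = A} ≃ {x : Vec m // x ∈ A} ×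
      {u : Fin d → Vec m // LinearIndependent (ZMod 2) u ∧
      Submodule.span (ZMod 2) (Set.range u) = A.direction} := by
    refine ⟨fun p => (⟨p.1.1, ?_⟩, ⟨p.1.2.1, p.1.2.2, ?_⟩), fun q => ⟨(q.1.1, ⟨q.2.1, q.2.2.1⟩), ?_⟩,
      ?_, ?_⟩
    · have := base_mem_flat p.1
      rwa [p.2] at this
    · rw [← flat_direction, p.2]
    · refine AffineSubspace.ext_of_direction_eq ?_ ⟨q.1.1, base_mem_flat _, q.1.2⟩
      rw [flat_direction, q.2.2.2]
    · intro p; rfl
    · intro q; rfl
  rw [Nat.card_congr e, Nat.card_prod, card_affine A hA, card_bases]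
  split_ifs with h
  · rw [h]
  · simp

open Classical in
/-- The Moebius-type identity: the indicator of `B ≠ ∅` as a weighted sum over flats. -/
theorem indicator_eq {m : ℕ} (B : Finset (Vec m)) (D : ℕ)
    (hD : ∀ S ⊆ B, S.Nonempty →
      finrank (ZMod 2) (affineSpan (ZMod 2) (S : Set (Vec m))).direction < D) :
    (if B.Nonempty then (1 : ℚ) else 0) =
      ∑ d ∈ range D, (1 / ((2 ^ d * frames d d : ℕ) : ℚ)) *
        ∑ p : Par m d, (spanWeight (tau p ⁻¹' (B : Set (Vec m))) : ℚ) := by
  have h1 : ∀ d, ∑ p : Par m d, (spanWeight (tau p ⁻¹' (B : Set (Vec m))) : ℚ) =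
      ∑ S ∈ B.powerset, (-1 : ℚ) ^ (S.card + 1) *
        (Nat.card {p : Par m d // flat p = affineSpan (ZMod 2) (S : Set (Vec m))} : ℚ) := by
    intro d
    simp_rw [spanWeight_preimage]
    push_cast
    rw [Finset.sum_comm]
    refine Finset.sum_congr rfl fun S _ => ?_
    rw [← Finset.sum_filter, Finset.sum_const, Nat.card_eq_fintype_card, Fintype.card_subtype,
      nsmul_eq_mul, mul_comm]
    congr 3
    ext p
    simp [eq_comm]
  simp_rw [h1, Finset.mul_sum]
  rw [Finset.sum_comm]
  have h2 : ∀ S ∈ B.powerset, ∑ d ∈ range D, (1 / ((2 ^ d * frames d d : ℕ) : ℚ)) *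
      ((-1 : ℚ) ^ (S.card + 1) *
        (Nat.card {p : Par m d // flat p = affineSpan (ZMod 2) (S : Set (Vec m))} : ℚ)) =
      if S = ∅ then 0 else (-1 : ℚ) ^ (S.card + 1) := by
    intro S hS
    rw [mem_powerset] at hS
    split_ifs with h0
    · subst h0
      refine Finset.sum_eq_zero fun d _ => ?_
      have : IsEmpty {p : Par m d // flat p =
          affineSpan (ZMod 2) ((∅ : Finset (Vec m)) : Set (Vec m))} := by
        constructor
        rintro ⟨p, hp⟩
        have h3 := base_mem_flat p
        rw [hp, Finset.coe_empty, AffineSubspace.span_empty] at h3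
        exact AffineSubspace.notMem_bot _ _ _ h3
      rw [Nat.card_of_isEmpty]
      simp
    · have hne : S.Nonempty := Finset.nonempty_iff_ne_empty.2 h0
      have hA : ((affineSpan (ZMod 2) (S : Set (Vec m)) : AffineSubspace (ZMod 2) (Vec m)) :
          Set (Vec m)).Nonempty := by
        rw [affineSpan_nonempty]; exact hne
      have hk := hD S hS hne
      set k := finrank (ZMod 2) (affineSpan (ZMod 2) (S : Set (Vec m))).direction with hkdef
      rw [Finset.sum_eq_single_of_mem k (mem_range.2 hk)]
      · rw [card_par_flat _ hA, ← hkdef, if_pos rfl]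
        have h4 : ((2 ^ k * frames k k : ℕ) : ℚ) ≠ 0 := by
          have := frames_pos k
          positivity
        field_simp
      · intro d _ hdk
        rw [card_par_flat _ hA, if_neg hdk]
        simp
  rw [Finset.sum_congr rfl h2]
  have h5 : ∑ S ∈ B.powerset, (if S = ∅ then (0 : ℚ) else (-1) ^ (S.card + 1)) =
      1 - ∑ S ∈ B.powerset, (-1 : ℚ) ^ S.card := by
    rw [eq_sub_iff_add_eq, ← Finset.sum_add_distrib]
    have h6 : ∑ S ∈ B.powerset, (if S = ∅ then (1 : ℚ) else 0) = 1 := by
      rw [Finset.sum_ite_eq' B.powerset ∅]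
      simp
    refine Eq.trans (Finset.sum_congr rfl fun S _ => ?_) h6
    split_ifs with h
    · simp [h]
    · ring
  rw [h5]
  have h7 : ∑ S ∈ B.powerset, (-1 : ℚ) ^ S.card = if B = ∅ then 1 else 0 := by
    have := Finset.sum_powerset_neg_one_pow_card (x := B)
    exact_mod_cast congrArg (Int.cast : ℤ → ℚ) this
  rw [h7]
  by_cases hB : B = ∅
  · simp [hB]
  · rw [if_pos (Finset.nonempty_iff_ne_empty.2 hB), if_neg hB]; ring

end Pool.Agent.RMC
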