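import Mathlib

/-!
# Coset leader weight distribution of the first-order Reed-Muller code: definitions
-/

set_option autoImplicit false

namespace Pool.Agent.RMC

/-- The space `F₂^m`. -/
abbrev Vec (m : ℕ) := Fin m → ZMod 2

/-- The first-order Reed-Muller code `R(1,m)`: the affine functions `x ↦ a·x + b` on `F₂^m`,
a subspace of the space of all functions `F₂^m → F₂`. -/
def reedMuller (m : ℕ) : Submodule (ZMod 2) (Vec m → ZMod 2) where
  carrier := {f | ∃ (a : Vec m) (b : ZMod 2), ∀ x, f x = a ⬝ᵥ x + b}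
  add_mem' := by
    rintro f g ⟨a, b, h⟩ ⟨a', b', h'⟩
    exact ⟨a + a', b + b', fun x => by rw [Pi.add_apply, h, h', add_dotProduct]; ring⟩
  zero_mem' := ⟨0, 0, fun x => by simp⟩
  smul_mem' := by
    rintro c f ⟨a, b, h⟩
    exact ⟨c • a, c * b, fun x => by
      rw [Pi.smul_apply, h, smul_dotProduct, smul_add, smul_eq_mul c b]⟩

/-- The weight of a coset of `R(1,m)`: the least Hamming weight of its elements. -/
noncomputable def leaderWeight {m : ℕ} (q : (Vec m → ZMod 2) ⧸ reedMuller m) : ℕ :=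
  sInf {w | ∃ f : Vec m → ZMod 2, (reedMuller m).mkQ f = q ∧ hammingNorm f = w}

/-- `α_i`: the number of cosets of `R(1,m)` of weight `i`. -/
noncomputable def leaderCount (m i : ℕ) : ℕ :=
  Nat.card {q : (Vec m → ZMod 2) ⧸ reedMuller m // leaderWeight q = i}

/-- For `2^d` cells of `M` points each, indexed by `F₂^d`, and `c v` marked points in cell `v`:
the number of points at which the set of marked points and the set where `t·v = 1` differ. -/
def cellDist {d : ℕ} (M : ℕ) (c : Vec d → ℕ) (t : Vec d) : ℕ :=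
  ∑ v, if t ⬝ᵥ v = 0 then c v else M - c v

/-- The set of those `t` for which this number, or its complement `2^d M -` it, is `≤ i`. -/
def nearSet {d : ℕ} (M i : ℕ) (c : Vec d → ℕ) : Set (Vec d) :=
  {t | cellDist M c t ≤ i ∨ 2 ^ d * M ≤ i + cellDist M c t}

open Classical in
/-- The sum of `(-1)^(|S|+1)` over the subsets `S` of `B` whose affine span is `F₂^d`. -/
noncomputable def spanWeight {d : ℕ} (B : Set (Vec d)) : ℤ :=
  ∑ S : Finset (Vec d),
    if (S : Set (Vec d)) ⊆ B ∧ affineSpan (ZMod 2) (S : Set (Vec d)) = ⊤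
    then (-1) ^ (S.card + 1) else 0

/-- The weighted number of ways to mark points in `2^d` cells of `M` points each. -/
noncomputable def cellSum (d M i : ℕ) : ℤ :=
  ∑ c : Vec d → Fin (M + 1),
    spanWeight (nearSet M i fun v => (c v : ℕ)) * ∏ v, (M.choose (c v) : ℤ)

/-- The number of `d`-dimensional affine subspaces of `F₂^m`. -/
def flatCount (m d : ℕ) : ℚ :=
  ((2 : ℚ) ^ m * ∏ j ∈ Finset.range d, ((2 : ℚ) ^ m - 2 ^ j)) /
    ((2 : ℚ) ^ d * ∏ j ∈ Finset.range d, ((2 : ℚ) ^ d - 2 ^ j))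

/-- The right-hand side of the formula: the flats of dimension at most `r` are used. -/
noncomputable def flatSum (m r i : ℕ) : ℚ :=
  (1 / 2 ^ (m + 1)) *
    ∑ d ∈ Finset.range (r + 1), flatCount m d * (cellSum d (2 ^ (m - d)) i : ℚ)

/-- `θ_k = C(k, ⌊k/2⌋) / 2^k`. -/
def theta (k : ℕ) : ℚ := (k.choose (k / 2) : ℚ) / 2 ^ k

end Pool.Agent.RMC
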