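import Pool.Agent.RMC.Bound

set_option autoImplicit false

open Module Finset

namespace Pool.Agent.RMC

lemma lin_add_one_dist {m : ℕ} (g : Vec m → ZMod 2) (a : Vec m) :
    hammingDist g (fun x => lin a x + 1) + hammingDist g (lin a) = 2 ^ m := by
  rw [hammingDist, hammingDist, ← Finset.card_union_of_disjoint]
  · have : (univ.filter fun x => g x ≠ lin a x + 1) ∪ (univ.filter fun x => g x ≠ lin a x) =
        (univ : Finset (Vec m)) := by
      ext x
      simp only [mem_union, mem_filter, mem_univ, true_and, iff_true]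
      generalize lin a x = b
      generalize g x = a
      revert a b; decide
    rw [this]; simp
  · rw [Finset.disjoint_left]
    intro x hx hx'
    simp only [mem_filter, mem_univ, true_and] at hx hx'
    revert hx hx'
    generalize lin a x = b
    generalize g x = a
    revert a b; decide

lemma hammingNorm_sub {m : ℕ} (f g h : Vec m → ZMod 2) (hfg : ∀ x, f x - g x = h x) :
    hammingNorm f = hammingDist g h := by
  rw [hammingNorm, hammingDist]
  congr 1
  ext x
  simp only [mem_filter, mem_univ, true_and]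
  have := hfg x
  revert this
  generalize f x = a
  generalize g x = b
  generalize h x = c
  revert a b c; decide

lemma mkQ_eq_iff {m : ℕ} (f g : Vec m → ZMod 2) :
    (reedMuller m).mkQ f = (reedMuller m).mkQ g ↔
      ∃ (a : Vec m) (b : ZMod 2), ∀ x, f x - g x = a ⬝ᵥ x + b := by
  rw [Submodule.mkQ_apply, Submodule.mkQ_apply, Submodule.Quotient.eq]
  rfl

lemma leaderWeight_le_iff {m i : ℕ} (g : Vec m → ZMod 2) :
    leaderWeight ((reedMuller m).mkQ g) ≤ i ↔ (near i g).Nonempty := by
  have hne : {w | ∃ f : Vec m → ZMod 2, (reedMuller m).mkQ f = (reedMuller m).mkQ g ∧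
      hammingNorm f = w}.Nonempty := ⟨_, g, rfl, rfl⟩
  constructor
  · intro h
    obtain ⟨f, hf, hw⟩ := Nat.sInf_mem hne
    obtain ⟨a, b, hab⟩ := (mkQ_eq_iff f g).1 hf
    have hle : hammingNorm f ≤ i := by rw [hw]; exact h
    refine ⟨a, ?_⟩
    rw [near, mem_filter]
    refine ⟨mem_univ _, ?_⟩
    rcases zmod2_cases b with hb | hb
    · left
      rwa [← hammingNorm_sub f g (lin a) (fun x => by rw [hab, hb, add_zero]; rfl)]
    · right
      have h1 := hammingNorm_sub f g (fun x => lin a x + 1) (fun x => by rw [hab, hb]; rfl)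
      have h2 := lin_add_one_dist g a
      omega
  · rintro ⟨a, ha⟩
    rw [near, mem_filter] at ha
    rcases ha.2 with h | h
    · have h3 : leaderWeight ((reedMuller m).mkQ g) ≤ hammingNorm (g + lin a) :=
        Nat.sInf_le ⟨g + lin a, (mkQ_eq_iff _ _).2 ⟨a, 0, fun x => by simp [lin]⟩, rfl⟩
      refine h3.trans ?_
      rwa [hammingNorm_sub (g + lin a) g (lin a) (fun x => by simp)]
    · have h3 : leaderWeight ((reedMuller m).mkQ g) ≤
          hammingNorm (fun x => g x + (lin a x + 1)) :=
        Nat.sInf_le ⟨fun x => g x + (lin a x + 1), (mkQ_eq_iff _ _).2 ⟨a, 1, fun x => by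
          simp [lin]⟩, rfl⟩
      refine h3.trans ?_
      rw [hammingNorm_sub (fun x => g x + (lin a x + 1)) g (fun x => lin a x + 1)
          (fun x => by simp)]
      have h2 := lin_add_one_dist g a
      omega

lemma card_reedMuller (m : ℕ) : Nat.card (reedMuller m) = 2 ^ (m + 1) := by
  have e : Nat.card (Vec m × ZMod 2) = Nat.card (reedMuller m) := by
    refine Nat.card_congr (Equiv.ofBijective
      (fun q => (⟨fun x => q.1 ⬝ᵥ x + q.2, q.1, q.2, fun _ => rfl⟩ : reedMuller m)) ⟨?_, ?_⟩)
    · rintro ⟨a, b⟩ ⟨a', b'⟩ h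
      have h1 : ∀ x : Vec m, a ⬝ᵥ x + b = a' ⬝ᵥ x + b' := fun x =>
        congrFun (congrArg Subtype.val h) x
      have hb : b = b' := by simpa using h1 0
      subst hb
      have ha : a = a' := by
        funext j
        simpa using h1 (Pi.single j 1)
      rw [ha]
    · rintro ⟨f, a, b, h⟩
      exact ⟨(a, b), Subtype.ext (funext fun x => (h x).symm)⟩
  rw [← e, Nat.card_prod]
  simp [pow_succ]

/-- counting functions through cosets -/
lemma card_fun_eq (m : ℕ) (P : ((Vec m → ZMod 2) ⧸ reedMuller m) → Prop) :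
    Nat.card {g : Vec m → ZMod 2 // P ((reedMuller m).mkQ g)} =
      Nat.card {q : (Vec m → ZMod 2) ⧸ reedMuller m // P q} * 2 ^ (m + 1) := by
  classical
  have : Fintype ((Vec m → ZMod 2) ⧸ reedMuller m) := Fintype.ofFinite _
  have hfib : ∀ q : (Vec m → ZMod 2) ⧸ reedMuller m,
      Nat.card {g : Vec m → ZMod 2 // (reedMuller m).mkQ g = q} = 2 ^ (m + 1) := by
    intro q
    obtain ⟨g0, rfl⟩ := Submodule.mkQ_surjective _ q
    rw [← card_reedMuller]
    refine Nat.card_congr ⟨fun g => ⟨g.1 - g0, ?_⟩, fun f => ⟨f.1 + g0, ?_⟩, ?_, ?_⟩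
    · exact (Submodule.Quotient.eq _).1 g.2
    · exact (Submodule.Quotient.eq _).2 (by simp)
    · intro g; exact Subtype.ext (sub_add_cancel _ _)
    · intro f; exact Subtype.ext (add_sub_cancel_right _ _)
  have e : {g : Vec m → ZMod 2 // P ((reedMuller m).mkQ g)} ≃
      Σ q : {q : (Vec m → ZMod 2) ⧸ reedMuller m // P q},
        {g : Vec m → ZMod 2 // (reedMuller m).mkQ g = q.1} :=
    ⟨fun g => ⟨⟨_, g.2⟩, ⟨g.1, rfl⟩⟩, fun s => ⟨s.2.1, by rw [s.2.2]; exact s.1.2⟩,
      fun g => rfl, fun s => by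
        rcases s with ⟨⟨q, hq⟩, ⟨g, hg⟩⟩
        dsimp only at hg
        subst hg
        rfl⟩
  rw [Nat.card_congr e, Nat.card_sigma]
  simp_rw [hfib]
  rw [Finset.sum_const, Finset.card_univ, smul_eq_mul, Nat.card_eq_fintype_card]

lemma sum_leaderCount (m i : ℕ) :
    ∑ j ∈ range (i + 1), leaderCount m j =
      Nat.card {q : (Vec m → ZMod 2) ⧸ reedMuller m // leaderWeight q ≤ i} := by
  classical
  have : Fintype ((Vec m → ZMod 2) ⧸ reedMuller m) := Fintype.ofFinite _
  have h1 : ∀ j, leaderCount m j =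
      #{q : (Vec m → ZMod 2) ⧸ reedMuller m | leaderWeight q = j} := by
    intro j
    rw [leaderCount, Nat.card_eq_fintype_card, Fintype.card_subtype]
  simp_rw [h1]
  rw [Nat.card_eq_fintype_card, Fintype.card_subtype,
    Finset.card_eq_sum_card_fiberwise (f := fun q => leaderWeight q) (t := range (i + 1))]
  · refine Finset.sum_congr rfl fun j hj => ?_
    congr 1
    ext q
    simp only [mem_filter, mem_univ, true_and]
    have := mem_range.1 hj
    omega
  · intro q hq
    simp only [coe_filter, mem_univ, true_and, Set.mem_ofPred_eq, coe_range, Set.mem_Iio] at hq ⊢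
    omega

theorem main (m r i : ℕ)
    (h : 2 ^ (r + 2) * i + (r + 1).choose ((r + 1) / 2) * 2 ^ m < 2 ^ (r + 1) * 2 ^ m) :
    ∑ j ∈ range (i + 1), (leaderCount m j : ℚ) =
      (1 / 2 ^ (m + 1)) *
        ∑ d ∈ range (r + 1), flatCount m d * (cellSum d (2 ^ (m - d)) i : ℚ) := by
  classical
  have h1 : ∑ j ∈ range (i + 1), (leaderCount m j : ℚ) * 2 ^ (m + 1) =
      ∑ g : Vec m → ZMod 2, if (near i g).Nonempty then (1 : ℚ) else 0 := by
    rw [← Finset.sum_mul]
    have h2 := card_fun_eq m (fun q => leaderWeight q ≤ i)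
    simp_rw [leaderWeight_le_iff] at h2
    rw [← sum_leaderCount] at h2
    rw [Finset.sum_boole]
    have h3 : Nat.card {g : Vec m → ZMod 2 // (near i g).Nonempty} =
        #{g : Vec m → ZMod 2 | (near i g).Nonempty} := by
      rw [Nat.card_eq_fintype_card, Fintype.card_subtype]
    rw [← h3, h2]
    push_cast
    rfl
  have h4 : ∑ g : Vec m → ZMod 2, (if (near i g).Nonempty then (1 : ℚ) else 0) =
      ∑ d ∈ range (r + 1), flatCount m d * (cellSum d (2 ^ (m - d)) i : ℚ) := by
    rw [Finset.sum_congr rfl fun g _ => indicator_eq (near i g) (r + 1)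
      (fun S hS hne => near_dim g h S hS hne), Finset.sum_comm]
    refine Finset.sum_congr rfl fun d _ => ?_
    rw [← Finset.mul_sum, Finset.sum_comm]
    by_cases hd : d ≤ m
    · have h5 : ∀ p : Par m d, ∑ g : Vec m → ZMod 2,
          (spanWeight (tau p ⁻¹' (near i g : Set (Vec m))) : ℚ) =
          (cellSum d (2 ^ (m - d)) i : ℚ) := by
        intro p
        rw [← sum_spanWeight p i]
        push_cast
        rfl
      rw [Finset.sum_congr rfl fun p _ => h5 p, Finset.sum_const, Finset.card_univ, card_par hd,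
        nsmul_eq_mul, flatCount, ← frames_cast hd, ← frames_cast le_rfl]
      push_cast
      ring
    · push Not at hd
      have := par_empty hd
      have h6 : ∏ j ∈ range d, ((2 : ℚ) ^ m - 2 ^ j) = 0 :=
        Finset.prod_eq_zero (mem_range.2 hd) (sub_self _)
      rw [flatCount, h6]
      simp
  rw [← h4, ← h1, ← Finset.sum_mul]
  field_simp

end Pool.Agent.RMC
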