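import Pool.Agent.RMC.Cells

set_option autoImplicit false

open Module Finset

namespace Pool.Agent.RMC

/-- the sign of an element of `F₂` -/
def sg (a : ZMod 2) : ℤ := if a = 0 then 1 else -1

lemma sg_add (a b : ZMod 2) : sg (a + b) = sg a * sg b := by
  revert a b; decide

lemma sg_sq (a : ZMod 2) : sg a * sg a = 1 := by
  revert a; decide

lemma abs_sg (a : ZMod 2) : |sg a| = 1 := by
  revert a; decide

/-- sum of signs -/
def S {k : ℕ} (v : Vec k) : ℤ := ∑ j, sg (v j)

lemma S_add_one {k : ℕ} (v : Vec k) : S (v + 1) = - S v := by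
  rw [S, S, ← Finset.sum_neg_distrib]
  refine Finset.sum_congr rfl fun j _ => ?_
  rw [Pi.add_apply, Pi.one_apply, sg_add]
  have : sg 1 = -1 := by decide
  rw [this]; ring

/-- `E_k` -/
def EE (k : ℕ) : ℤ := ∑ v : Vec k, |1 + S v|

def FF (k : ℕ) : ℤ := ∑ v : Vec k, |S v|

def ZZ (k : ℕ) : ℕ := #{v : Vec k | S v = 0}

lemma EE_symm (k : ℕ) : EE k = ∑ v : Vec k, |S v - 1| := by
  rw [EE]
  refine Fintype.sum_equiv (Equiv.addRight 1) _ _ fun v => ?_
  rw [Equiv.coe_addRight, S_add_one, ← abs_neg]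
  congr 1
  ring

lemma abs_add_abs (s : ℤ) : |1 + s| + |s - 1| = 2 * |s| + if s = 0 then 2 else 0 := by
  split_ifs with h
  · subst h; simp
  · rcases lt_or_gt_of_ne h with h1 | h1
    · rw [abs_of_nonpos (by omega), abs_of_nonpos (by omega), abs_of_nonpos (by omega)]; ring
    · rw [abs_of_nonneg (by omega), abs_of_nonneg (by omega), abs_of_nonneg (by omega)]; ring

lemma EE_eq (k : ℕ) : EE k = FF k + ZZ k := by
  have h1 : 2 * EE k = ∑ v : Vec k, (|1 + S v| + |S v - 1|) := by
    rw [Finset.sum_add_distrib, ← EE_symm, ← EE]; ring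
  have h2 : ∑ v : Vec k, (|1 + S v| + |S v - 1|) = 2 * FF k + 2 * ZZ k := by
    simp_rw [abs_add_abs]
    rw [Finset.sum_add_distrib, ← Finset.mul_sum, FF, ZZ, ← Finset.sum_filter, Finset.sum_const,
      nsmul_eq_mul]
    ring
  omega

lemma S_cons {k : ℕ} (a : ZMod 2) (v : Vec k) :
    S (Fin.cons a v : Vec (k + 1)) = sg a + S v := by
  rw [S, Fin.sum_univ_succ, Fin.cons_zero, S]
  simp

lemma FF_succ (k : ℕ) : FF (k + 1) = 2 * EE k := by
  have h : FF (k + 1) = ∑ x : ZMod 2 × Vec k, |sg x.1 + S x.2| := by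
    rw [FF]
    refine (Fintype.sum_equiv (Fin.consEquiv fun _ : Fin (k + 1) => ZMod 2) _ _ fun x => ?_).symm
    rw [← S_cons]
    rfl
  have hu : (Finset.univ : Finset (ZMod 2)) = {0, 1} := rfl
  rw [h, Fintype.sum_prod_type, hu, Finset.sum_pair (by decide)]
  have h0 : sg 0 = 1 := by decide
  have h1 : sg 1 = -1 := by decide
  simp only [h0, h1]
  have h2 := EE_symm k
  have h3 : ∑ x : Vec k, |-1 + S x| = ∑ v : Vec k, |S v - 1| :=
    Finset.sum_congr rfl fun v _ => by congr 1; ring
  rw [h3, ← h2, ← EE]; ring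

lemma S_eq {k : ℕ} (v : Vec k) : S v = k - 2 * #{j | v j ≠ 0} := by
  have : ∀ j, sg (v j) = 1 - 2 * (if v j ≠ 0 then 1 else 0) := by
    intro j
    rcases zmod2_cases (v j) with h | h <;> rw [h] <;> decide
  rw [S]
  simp_rw [this]
  rw [Finset.sum_sub_distrib, ← Finset.mul_sum, Finset.sum_boole]
  simp

lemma ZZ_eq (k : ℕ) : ZZ k = if Even k then k.choose (k / 2) else 0 := by
  have h1 : ∀ v : Vec k, S v = 0 ↔ 2 * #{j | v j ≠ 0} = k := by
    intro v
    rw [S_eq]
    omega
  rw [ZZ]
  simp_rw [h1]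
  split_ifs with hk
  · obtain ⟨s, rfl⟩ := hk
    have h2 : (s + s) / 2 = s := by omega
    rw [h2]
    have h3 : (s + s).choose s = #(powersetCard s (univ : Finset (Fin (s + s)))) := by simp
    rw [h3]
    refine Finset.card_bij' (fun v _ => ({j | v j ≠ 0} : Finset (Fin (s + s))))
      (fun A _ j => if j ∈ A then 1 else 0) ?_ ?_ ?_ ?_
    · intro v hv
      rw [mem_filter] at hv
      rw [mem_powersetCard]
      exact ⟨subset_univ _, by omega⟩
    · intro A hA
      rw [mem_powersetCard] at hA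
      rw [mem_filter]
      refine ⟨mem_univ _, ?_⟩
      have : ({j | (fun j => if j ∈ A then (1 : ZMod 2) else 0) j ≠ 0} : Finset (Fin (s + s))) =
          A := by
        ext j; simp
      rw [this]; omega
    · intro v _
      funext j
      rcases zmod2_cases (v j) with h | h <;> simp [h]
    · intro A _
      ext j; simp
  · rw [Finset.card_eq_zero, Finset.filter_eq_empty_iff]
    intro v _ h
    exact hk ⟨_, by rw [← h]; ring⟩

lemma EE_closed (k : ℕ) : EE k = (k + 1) * k.choose (k / 2) := by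
  induction k with
  | zero => decide
  | succ k ih =>
    rw [EE_eq, FF_succ, ih, ZZ_eq]
    rcases Nat.even_or_odd k with hk | hk
    · obtain ⟨s, rfl⟩ := hk
      have h1 : ¬ Even (s + s + 1) := by
        rw [Nat.not_even_iff_odd]; exact ⟨s, by ring⟩
      rw [if_neg h1]
      have h2 : (s + s) / 2 = s := by omega
      have h3 : (s + s + 1) / 2 = s := by omega
      rw [h2, h3]
      have h4 : (s + s + 1) * (s + s).choose s = (s + s + 1).choose s * (s + s + 1 - s) := by
        rw [mul_comm, Nat.choose_mul_succ_eq]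
      have h5 : s + s + 1 - s = s + 1 := by omega
      rw [h5] at h4
      have h6 : ((s + s + 1 : ℕ) : ℤ) * ((s + s).choose s : ℕ) =
        ((s + s + 1).choose s : ℕ) * ((s + 1 : ℕ) : ℤ) := by exact_mod_cast h4
      push_cast at h6 ⊢
      linear_combination 2 * h6
    · obtain ⟨s, rfl⟩ := hk
      have h1 : Even (2 * s + 1 + 1) := ⟨s + 1, by ring⟩
      rw [if_pos h1]
      have h2 : (2 * s + 1) / 2 = s := by omega
      have h3 : (2 * s + 1 + 1) / 2 = s + 1 := by omega
      rw [h2, h3]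
      have h4 : (2 * s + 1 + 1).choose (s + 1) = 2 * (2 * s + 1).choose s := by
        rw [Nat.choose_succ_succ, Nat.choose_symm_half]; ring
      rw [h4]
      push_cast
      ring

end Pool.Agent.RMC
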