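import Pool.Agent.RMC.Defs

set_option autoImplicit false

open Module Finset

namespace Pool.Agent.RMC

/-- parametrisations of `d`-dimensional flats -/
abbrev Par (m d : ℕ) := Vec m × {u : Fin d → Vec m // LinearIndependent (ZMod 2) u}

noncomputable instance (m d : ℕ) : Fintype (Par m d) := Fintype.ofFinite _

noncomputable def linPart {m d : ℕ} (u : Fin d → Vec m) : Vec d →ₗ[ZMod 2] Vec m :=
  Fintype.linearCombination (ZMod 2) u

noncomputable def tau {m d : ℕ} (p : Par m d) : Vec d →ᵃ[ZMod 2] Vec m :=
  (linPart p.2.1).toAffineMap + AffineMap.const (ZMod 2) (Vec d) p.1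

lemma tau_apply {m d : ℕ} (p : Par m d) (t : Vec d) :
    tau p t = ∑ j, t j • p.2.1 j + p.1 := by
  simp [tau, linPart, Fintype.linearCombination_apply]

lemma linPart_injective {m d : ℕ} {u : Fin d → Vec m} (hu : LinearIndependent (ZMod 2) u) :
    Function.Injective (linPart u) := by
  exact linearIndependent_iff_injective_fintypeLinearCombination.1 hu

lemma tau_injective {m d : ℕ} (p : Par m d) : Function.Injective (tau p) := by
  intro s t h
  apply linPart_injective p.2.2
  have : linPart p.2.1 s + p.1 = linPart p.2.1 t + p.1 := by simpa [tau] using h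
  exact add_right_cancel this

/-- image of the whole space under the parametrisation -/
noncomputable def flat {m d : ℕ} (p : Par m d) : AffineSubspace (ZMod 2) (Vec m) :=
  (⊤ : AffineSubspace (ZMod 2) (Vec d)).map (tau p)

lemma mem_flat {m d : ℕ} (p : Par m d) (x : Vec m) : x ∈ flat p ↔ ∃ t, tau p t = x := by
  simp [flat, AffineSubspace.mem_map]

lemma base_mem_flat {m d : ℕ} (p : Par m d) : p.1 ∈ flat p :=
  (mem_flat p _).2 ⟨0, by simp [tau_apply]⟩

lemma flat_direction {m d : ℕ} (p : Par m d) :
    (flat p).direction = Submodule.span (ZMod 2) (Set.range p.2.1) := by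
  rw [flat, AffineSubspace.map_direction, AffineSubspace.direction_top]
  have : (tau p).linear = linPart p.2.1 := by simp [tau]
  rw [this, Submodule.map_top, linPart, Fintype.range_linearCombination]

open Classical in
/-- transport of the weight to the flat -/
lemma spanWeight_preimage {m d : ℕ} (p : Par m d) (B : Finset (Vec m)) :
    spanWeight (tau p ⁻¹' (B : Set (Vec m))) =
      ∑ S ∈ B.powerset, if affineSpan (ZMod 2) (S : Set (Vec m)) = flat p
        then (-1 : ℤ) ^ (S.card + 1) else 0 := by
  have hinj := tau_injective p
  rw [spanWeight, ← Finset.sum_filter, ← Finset.sum_filter]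
  refine Finset.sum_bij (fun S _ => S.map ⟨tau p, hinj⟩) ?_ ?_ ?_ ?_
  · intro S hS
    simp only [mem_filter, mem_univ, true_and] at hS
    simp only [mem_filter, mem_powerset]
    refine ⟨?_, ?_⟩
    · intro x hx
      obtain ⟨t, ht, rfl⟩ := Finset.mem_map.1 hx
      exact hS.1 ht
    · rw [flat, ← hS.2, AffineSubspace.map_span]
      simp
  · intro S _ T _ h
    exact Finset.map_injective _ h
  · intro S hS
    simp only [mem_filter, mem_powerset] at hS
    obtain ⟨hSB, hS⟩ := hS
    have hsub : ∀ x ∈ S, ∃ t, tau p t = x := by
      intro x hx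
      rw [← mem_flat, ← hS]
      exact subset_affineSpan _ _ hx
    refine ⟨Finset.univ.filter fun t => tau p t ∈ S, ?_, ?_⟩
    · simp only [mem_filter, mem_univ, true_and]
      have himg : tau p '' ((Finset.univ.filter fun t => tau p t ∈ S : Finset (Vec d)) :
          Set (Vec d)) = (S : Set (Vec m)) := by
        ext x
        constructor
        · rintro ⟨t, ht, rfl⟩
          simpa using ht
        · intro hx
          obtain ⟨t, rfl⟩ := hsub x hx
          exact ⟨t, by simpa using hx, rfl⟩
      refine ⟨?_, ?_⟩
      · intro t ht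
        have : tau p t ∈ S := by simpa using ht
        exact hSB this
      · rw [eq_top_iff]
        intro t _
        have h1 : tau p t ∈ (affineSpan (ZMod 2) ((Finset.univ.filter fun t => tau p t ∈ S :
            Finset (Vec d)) : Set (Vec d))).map (tau p) := by
          rw [AffineSubspace.map_span, himg, hS]
          exact (mem_flat p _).2 ⟨t, rfl⟩
        obtain ⟨y, hy, hyt⟩ := (AffineSubspace.mem_map).1 h1
        rwa [← hinj hyt]
    · ext x
      simp only [mem_map, mem_filter, mem_univ, true_and, Function.Embedding.coeFn_mk]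
      constructor
      · rintro ⟨t, ht, rfl⟩
        exact ht
      · intro hx
        obtain ⟨t, rfl⟩ := hsub x hx
        exact ⟨t, hx, rfl⟩
  · intro S _
    simp

end Pool.Agent.RMC
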