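import Pool.Agent.RMC.Main

set_option autoImplicit false

open Finset

namespace Pool.Agent.RMC

lemma central_sq (s : ℕ) : ((s.centralBinom : ℚ)) ^ 2 * (2 * s + 1) ≤ (4 ^ s) ^ 2 := by
  induction s with
  | zero => simp
  | succ s ih =>
    have h := Nat.succ_mul_centralBinom_succ s
    have h' : ((s : ℚ) + 1) * ((s + 1).centralBinom : ℚ) =
        2 * (2 * s + 1) * (s.centralBinom : ℚ) := by exact_mod_cast h
    have hs : (0 : ℚ) < (s : ℚ) + 1 := by positivity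
    have h2 : ((s + 1).centralBinom : ℚ) = 2 * (2 * s + 1) * (s.centralBinom : ℚ) / (s + 1) := by
      field_simp; linarith
    rw [h2, div_pow, pow_succ (4 : ℚ) s]
    rw [div_mul_eq_mul_div, div_le_iff₀ (by positivity)]
    push_cast
    have h3 : (0 : ℚ) ≤ (s.centralBinom : ℚ) ^ 2 := by positivity
    have h4 : (0 : ℚ) ≤ s := by positivity
    have h5 : (2 * (2 * (s : ℚ) + 1) * (s.centralBinom : ℚ)) ^ 2 * (2 * (s + 1) + 1) =
        ((s.centralBinom : ℚ) ^ 2 * (2 * s + 1)) * (4 * (2 * s + 1) * (2 * s + 3)) := by ring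
    have h6 : ((4 : ℚ) ^ s * 4) ^ 2 * ((s : ℚ) + 1) ^ 2 = (4 ^ s) ^ 2 * (4 * (2 * s + 2) ^ 2) := by
      ring
    rw [h5, h6]
    refine mul_le_mul ih ?_ (by positivity) (by positivity)
    nlinarith

lemma theta_small (ε : ℚ) (hε : 0 < ε) : ∃ r : ℕ, theta (r + 1) ≤ ε := by
  obtain ⟨n, hn⟩ := exists_nat_gt (1 / ε ^ 2)
  have hn' : 1 < ε ^ 2 * n := by
    rwa [div_lt_iff₀ (by positivity), mul_comm] at hn
  have hnpos : 0 < n := by
    rcases Nat.eq_zero_or_pos n with h | h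
    · subst h; simp at hn'; linarith
    · exact h
  refine ⟨2 * n - 1, ?_⟩
  have e1 : 2 * n - 1 + 1 = 2 * n := by omega
  have e2 : 2 * n / 2 = n := by omega
  rw [e1, theta, e2, div_le_iff₀ (by positivity)]
  have h1 := central_sq n
  rw [Nat.centralBinom_eq_two_mul_choose] at h1
  have h2 : (2 : ℚ) ^ (2 * n) = 4 ^ n := by rw [pow_mul]; norm_num
  rw [h2]
  apply le_of_sq_le_sq _ (by positivity)
  have h3 : (0 : ℚ) ≤ ((2 * n).choose n : ℚ) ^ 2 := by positivity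
  have h4 : (0 : ℚ) < (4 ^ n) ^ 2 := by positivity
  have h5 : (0 : ℚ) < 2 * n + 1 := by positivity
  have h6 : ((2 * n).choose n : ℚ) ^ 2 ≤ (4 ^ n) ^ 2 / (2 * n + 1) := by
    rw [le_div_iff₀ h5]; exact h1
  refine h6.trans ?_
  rw [div_le_iff₀ h5, mul_pow]
  nlinarith

theorem formula (m r i : ℕ) (h : (i : ℚ) < (1 - theta (r + 1)) * (2 ^ m / 2)) :
    ∑ j ∈ range (i + 1), (leaderCount m j : ℚ) = flatSum m r i := by
  apply main
  rw [theta] at h
  have h1 : ((2 : ℚ) ^ (r + 2) * i + ((r + 1).choose ((r + 1) / 2) : ℕ) * 2 ^ m) <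
      2 ^ (r + 1) * 2 ^ m := by
    have h2 : (0 : ℚ) < 2 ^ (r + 1) := by positivity
    have h3 : (2 : ℚ) ^ (r + 2) = 2 * 2 ^ (r + 1) := by rw [pow_succ (2 : ℚ) (r + 1)]; ring
    have h4 := mul_lt_mul_of_pos_left h (by positivity : (0 : ℚ) < 2 * 2 ^ (r + 1))
    rw [h3]
    have h5 : 2 * (2 : ℚ) ^ (r + 1) * ((1 - ((r + 1).choose ((r + 1) / 2) : ℚ) / 2 ^ (r + 1)) *
        (2 ^ m / 2)) = 2 ^ (r + 1) * 2 ^ m - ((r + 1).choose ((r + 1) / 2) : ℚ) * 2 ^ m := by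
      field_simp
    linarith
  exact_mod_cast h1

theorem formula_eps (ε : ℚ) (hε : 0 < ε) : ∃ r : ℕ, ∀ m i : ℕ,
    (i : ℚ) < (1 - ε) * (2 ^ m / 2) →
    ∑ j ∈ range (i + 1), (leaderCount m j : ℚ) = flatSum m r i := by
  obtain ⟨r, hr⟩ := theta_small ε hε
  refine ⟨r, fun m i h => formula m r i (h.trans_le ?_)⟩
  exact mul_le_mul_of_nonneg_right (by linarith) (by positivity)

end Pool.Agent.RMC
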